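import Pool.Agent.Lib.MP_725e58_gt.Main
import Pool.Agent.Lib.MP_725e58_gt.Binom
import Pool.Agent.Lib.MP_725e58_gt.Defs

set_option autoImplicit false

namespace Pool.Agent.Results.MP_725e58_gt.BoundedAsymmetry

open MeasureTheory Pool.Agent.Lib.MP_725e58_gt

private lemma cancel {a b c : ℝ} {R V : ENNReal} (ha : 0 < a)
    (h : ENNReal.ofReal a * R ≤ ENNReal.ofReal b * V) (hb : b ≤ a * c) :
    R ≤ ENNReal.ofReal c * V := by
  have h1 : ENNReal.ofReal a * R ≤ ENNReal.ofReal a * (ENNReal.ofReal c * V) := by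
    rw [← mul_assoc, ← ENNReal.ofReal_mul ha.le]
    exact h.trans (by gcongr)
  exact (ENNReal.mul_le_mul_iff_right (by simpa using ha) (by simp)).mp h1

private lemma natCast_eq (n : ℕ) : ENNReal.ofReal (n : ℝ) = (n : ENNReal) := by simp

/-- Reflection bodies `conv (K ∪ (2x - K))`: a general comparison, the bound `m^(d/2)` in terms of
the asymmetry `m` about `x`, and the inequality of the problem for bounded asymmetry. -/
theorem result :
    (∀ (d : ℕ) (K M : Set (EuclideanSpace ℝ (Fin d))) (x : EuclideanSpace ℝ (Fin d)),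
      Convex ℝ M →
      (∀ y ∈ K, ∃ a : ℝ, 0 < a ∧ x + a • (y - x) ∈ M ∧ x - a⁻¹ • (y - x) ∈ M) →
      volume (ReflBody K x) ≤ volume M) ∧
    (∀ (d : ℕ) (K : Set (EuclideanSpace ℝ (Fin d))) (x : EuclideanSpace ℝ (Fin d)) (m : ℝ),
      1 ≤ m → AsymAt K x m →
      volume (ReflBody K x) ≤ ENNReal.ofReal (√m ^ d) * volume K ∧
      (Odd d → ENNReal.ofReal (m + 1) * volume (ReflBody K x)
        ≤ ENNReal.ofReal (2 * m ^ ((d + 1) / 2)) * volume K)) ∧
    (∀ (d : ℕ) (K : Set (EuclideanSpace ℝ (Fin d))) (x : EuclideanSpace ℝ (Fin d)),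
      (2 ≤ d ∧ AsymAt K x 2) ∨ (9 ≤ d ∧ AsymAt K x 3) →
      volume (ReflBody K x) ≤ ((Nat.choose d (d / 2) : ℕ) : ENNReal) * volume K) ∧
    (∀ m : ℝ, 0 < m → m < 4 → ∃ d₀ : ℕ, ∀ d ≥ d₀,
      ∀ (K : Set (EuclideanSpace ℝ (Fin d))) (x : EuclideanSpace ℝ (Fin d)), AsymAt K x m →
      volume (ReflBody K x) ≤ ((Nat.choose d (d / 2) : ℕ) : ENNReal) * volume K) := by
  have hfr : ∀ d : ℕ, Module.finrank ℝ (EuclideanSpace ℝ (Fin d)) = d := fun d => by simp
  have hA : ∀ (d : ℕ) (K : Set (EuclideanSpace ℝ (Fin d))) (x : EuclideanSpace ℝ (Fin d)) (m : ℝ),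
      1 ≤ m → AsymAt K x m →
      volume (ReflBody K x) ≤ ENNReal.ofReal (√m ^ d) * volume K ∧
      (Odd d → ENNReal.ofReal (m + 1) * volume (ReflBody K x)
        ≤ ENNReal.ofReal (2 * m ^ ((d + 1) / 2)) * volume K) := by
    rintro d K x m hm ⟨hK, hx⟩
    constructor
    · have h := asym_le volume hK (show 0 < m by linarith) hx
      rw [hfr d] at h
      exact h
    · intro hd
      have h := asym_le_odd volume hK hx hm (by rw [hfr d]; exact hd)
      rw [hfr d] at h
      exact h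
  refine ⟨fun d K M x hM hK => refl_le_one volume hM K x hK, hA, ?_, ?_⟩
  · intro d K x h
    rw [← natCast_eq]
    rcases h with ⟨hd, hx⟩ | ⟨hd, hx⟩
    · obtain ⟨h1, h2⟩ := hA d K x 2 (by norm_num) hx
      rcases Nat.even_or_odd' d with ⟨n, rfl | rfl⟩
      · refine h1.trans ?_
        gcongr
        rw [pow_mul, Real.sq_sqrt (by norm_num), choose_even]
        exact_mod_cast central_two (show 1 ≤ n by omega)
      · refine cancel (by norm_num) (h2 ⟨n, rfl⟩) ?_
        rw [show (2 * n + 1 + 1) / 2 = n + 1 by omega]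
        have h3 := central_two' (show 2 ≤ n + 1 by omega)
        rw [← two_choose_odd] at h3
        have h4 : ((2 : ℝ) ^ (n + 1) * 4) ≤
            3 * (2 * ((Nat.choose (2 * n + 1) ((2 * n + 1) / 2) : ℕ) : ℝ)) := by exact_mod_cast h3
        linarith
    · obtain ⟨h1, h2⟩ := hA d K x 3 (by norm_num) hx
      rcases Nat.even_or_odd' d with ⟨n, rfl | rfl⟩
      · refine h1.trans ?_
        gcongr
        rw [pow_mul, Real.sq_sqrt (by norm_num), choose_even]
        exact_mod_cast central_three (show 5 ≤ n by omega)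
      · refine cancel (by norm_num) (h2 ⟨n, rfl⟩) ?_
        rw [show (2 * n + 1 + 1) / 2 = n + 1 by omega]
        have h3 := central_three (show 5 ≤ n + 1 by omega)
        rw [← two_choose_odd] at h3
        have h4 : ((3 : ℝ) ^ (n + 1)) ≤
            2 * ((Nat.choose (2 * n + 1) ((2 * n + 1) / 2) : ℕ) : ℝ) := by exact_mod_cast h3
        linarith
  · intro m hm0 hm
    obtain ⟨d₀, hd₀⟩ := eventually_le hm0 hm
    refine ⟨d₀, fun d hd K x hK => ?_⟩
    rw [← natCast_eq]
    have h := asym_le volume hK.1 hm0 hK.2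
    rw [hfr d] at h
    refine h.trans ?_
    gcongr
    exact hd₀ d hd

end Pool.Agent.Results.MP_725e58_gt.BoundedAsymmetry
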