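import Pool.Agent.Lib.MP_725e58_gt.Loc.Main
import Pool.Agent.Lib.MP_725e58_gt.Loc.Wrap2
import Pool.Agent.Lib.MP_725e58_gt.Defs

set_option autoImplicit false

namespace Pool.Agent.Results.MP_725e58_gt.NearSimplex

open MeasureTheory Pool.Agent.Lib.MP_725e58_gt

/-- Bodies close to a simplex, in every dimension `d ≥ 2`: if `(1 - ε) S + v ⊆ K ⊆ S` for a simplex
`S`, then for some `x ∈ K` the reflection body of `K` about `x` satisfies the inequality of the
problem, with a stability term, and strictly unless `K` is a simplex. -/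
theorem result :
    ∀ d : ℕ, 2 ≤ d → ∃ ε : ℝ, 0 < ε ∧ ε < 1 ∧ ∃ c : ℝ, 0 < c ∧
    ∀ (s : Fin (d + 1) → EuclideanSpace ℝ (Fin d)) (v : EuclideanSpace ℝ (Fin d))
      (K : Set (EuclideanSpace ℝ (Fin d))),
      AffineIndependent ℝ s → IsCompact K → Convex ℝ K → K ⊆ convexHull ℝ (Set.range s) →
      (fun y => (1 - ε) • y + v) '' convexHull ℝ (Set.range s) ⊆ K →
      ∃ x ∈ K,
        (∃ t : Fin (d + 1) → EuclideanSpace ℝ (Fin d), AffineIndependent ℝ t ∧
          K ⊆ convexHull ℝ (Set.range t) ∧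
          volume (ReflBody K x) + ENNReal.ofReal c * volume (convexHull ℝ (Set.range t) \ K) ≤
            ((Nat.choose d (d / 2) : ℕ) : ENNReal) * volume K) ∧
        ((¬ ∃ t : Fin (d + 1) → EuclideanSpace ℝ (Fin d), AffineIndependent ℝ t ∧
            K = convexHull ℝ (Set.range t)) →
          volume (ReflBody K x) < ((Nat.choose d (d / 2) : ℕ) : ENNReal) * volume K) :=
  Loc.final_form2 Loc.Main.pFinal Loc.Main.pDiff

end Pool.Agent.Results.MP_725e58_gt.NearSimplex
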