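import Pool.Agent.Lib.MP_725e58_gt.FS.Mean7
import Pool.Agent.Lib.MP_725e58_gt.FS.SimpF59

set_option autoImplicit false

namespace Pool.Agent.Results.MP_725e58_gt.SharpMean

open MeasureTheory Set Pool.Agent.Lib.MP_725e58_gt
open scoped ENNReal

/-- `M d = C(2d+2, d+1) / 2 ^ (d+1)`. -/
noncomputable def M (d : ℕ) : ℝ := ((2 * d + 2).choose (d + 1) : ℝ) / 2 ^ (d + 1)

/-- For every convex body `K` in dimension `d` the mean of `|R_x|` over `x ∈ K` is at most
`M d |K|`. -/
def MeanInequality : Prop :=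
  ∀ (d : ℕ) (K : Set (EuclideanSpace ℝ (Fin d))),
    IsCompact K → Convex ℝ K → (interior K).Nonempty →
    ∫⁻ x in K, volume (ReflBody K x) ≤ ENNReal.ofReal (M d) * volume K * volume K

/-- For every simplex in dimension `d` the mean of `|R_x|` is equal to `M d |K|`. -/
def SimplexEquality : Prop :=
  ∀ (d : ℕ) (p : Fin (d + 1) → EuclideanSpace ℝ (Fin d)), AffineIndependent ℝ p →
    ∫⁻ x in convexHull ℝ (range p), volume (ReflBody (convexHull ℝ (range p)) x) =
      ENNReal.ofReal (M d) * volume (convexHull ℝ (range p)) * volume (convexHull ℝ (range p))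

/-- For every convex body `K` in dimension `d` the centroid `c` is in `K`, and `|R_c|` is at most
`M d |K|`, at most `(3/2) C(d, ⌊d/2⌋) |K|` and at most `√2 (1 + 1/(2d+3)) C(d, ⌊d/2⌋) |K|`. -/
def CentroidBound : Prop :=
  ∀ (d : ℕ) (K : Set (EuclideanSpace ℝ (Fin d))),
    IsCompact K → Convex ℝ K → (interior K).Nonempty →
    (⨍ x in K, x) ∈ K ∧
    volume (ReflBody K (⨍ x in K, x)) ≤ ENNReal.ofReal (M d) * volume K ∧
    volume (ReflBody K (⨍ x in K, x)) ≤
      ENNReal.ofReal (3 / 2 * (d.choose (d / 2) : ℝ)) * volume K ∧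
    volume (ReflBody K (⨍ x in K, x)) ≤
      ENNReal.ofReal (Real.sqrt 2 * (1 + 1 / (2 * d + 3)) * (d.choose (d / 2) : ℝ)) * volume K

theorem meanInequality : MeanInequality := by
  intro d K hc hv hi
  have hfin : Module.finrank ℝ (EuclideanSpace ℝ (Fin d)) = d := by simp
  have h1 := FR.mean_RB (volume : Measure (EuclideanSpace ℝ (Fin d))) hc hv hi
  rw [hfin, pow_two, ← mul_assoc] at h1
  exact h1

theorem simplexEquality : SimplexEquality := fun _ _ hp => FR.Simp.simplex_mean_RB hp

theorem centroidBound : CentroidBound := by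
  intro d K hc hv hi
  obtain ⟨h2, h3⟩ := FR.RB_centroid_le (volume : Measure (EuclideanSpace ℝ (Fin d))) hc hv hi
  have h4 : volume (ReflBody K (⨍ x in K, x)) ≤ ENNReal.ofReal (M d) * volume K :=
    (ENNReal.mul_le_mul_iff_left (FR.vol_ne_zero7 volume hi) hc.measure_lt_top.ne).mp
      (h3.trans (meanInequality d K hc hv hi))
  exact ⟨h2, h4, h4.trans (mul_le_mul' (ENNReal.ofReal_le_ofReal (FR.mc_le d)) le_rfl),
    h4.trans (mul_le_mul' (ENNReal.ofReal_le_ofReal (FR.mc_le_sqrt d)) le_rfl)⟩

/-- The sharp mean inequality for the reflection bodies `R_x = conv (K ∪ (2x - K))` of a convex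
body, and the bound which it gives at the centroid. -/
theorem result : MeanInequality ∧ SimplexEquality ∧ CentroidBound :=
  ⟨meanInequality, simplexEquality, centroidBound⟩

end Pool.Agent.Results.MP_725e58_gt.SharpMean
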