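import Pool.Agent.Lib.MP_725e58_gt.Tow.Points

set_option autoImplicit false

namespace Pool.Agent.Results.MP_725e58_gt.Towers

open MeasureTheory Pool.Agent.Lib.MP_725e58_gt.Tow

/-- The Fary-Redei inequality for towers of suspensions, a class that contains every polytope with
at most `d + 2` vertices. -/
theorem result (d : ℕ) (hd : 3 ≤ d) :
    (∀ K : Set (EuclideanSpace ℝ (Fin d)), Tower d K → (interior K).Nonempty →
      ∃ x ∈ K, volume (convexHull ℝ (K ∪ (fun y => (2 : ℝ) • x - y) '' K))
        ≤ ((Nat.choose d (d / 2) : ℕ) : ENNReal) * volume K) ∧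
    (∀ S : Finset (EuclideanSpace ℝ (Fin d)), S.Nonempty → S.card ≤ d + 2 →
      Tower d (convexHull ℝ (S : Set (EuclideanSpace ℝ (Fin d))))) := by
  have hfr : Module.finrank ℝ (EuclideanSpace ℝ (Fin d)) = d := by simp
  constructor
  · intro K hT hint
    have h := tower_main (volume : Measure (EuclideanSpace ℝ (Fin d))) (by rw [hfr]; exact hd)
      (by rw [hfr]; exact hT) hint
    rw [hfr] at h
    exact h
  · intro S hS hcard
    obtain ⟨n, rfl⟩ : ∃ n, d = n + 2 := ⟨d - 2, by omega⟩
    apply points_tower n S hS (by omega)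
    calc Module.finrank ℝ (vectorSpan ℝ (S : Set (EuclideanSpace ℝ (Fin (n + 2)))))
        ≤ Module.finrank ℝ (EuclideanSpace ℝ (Fin (n + 2))) := Submodule.finrank_le _
      _ = n + 2 := hfr

end Pool.Agent.Results.MP_725e58_gt.Towers
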